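import Pool.Agent.H942.T3.NF
import Pool.Agent.H942.LP.Top3
import Pool.Agent.H942.LP.Fin3

set_option autoImplicit false
set_option linter.unusedSectionVars false
set_option linter.unusedVariables false

/-! # The roots and the zeta functions -/

namespace Pool.Agent.H942.T3

open MvPolynomial Pool.Agent.H940.P
open Pool.Agent.Y229 (SF)
open Pool.Agent.H628R4.TP (IsBFunction)
open Pool.Agent.W428.MOT Pool.Agent.Q57.QM Pool.Agent.Q57.MD

theorem mult_lp {m : ℕ} {H : MvPolynomial (Fin 3) ℂ} {z : Fin 3 → ℂ} (h : MultLE m H z) :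
    Pool.Agent.H942.LP.MultLE m H z := by
  by_contra hc
  refine h fun i hi => ?_
  by_contra h0
  exact hc ⟨i, Nat.lt_succ_iff.1 hi, h0⟩

theorem start_lp {f H : MvPolynomial (Fin 3) ℂ} {e : ℕ} (h : Start f H e) : LP.Start f H e := by
  rcases h with ⟨κ, g₁, g₂, h1, h2, h3, h4, h5⟩ | ⟨N, P, k, h1, h2, h3, h4⟩
  · refine Or.inl ⟨κ, g₁, g₂, h1, h2, h3, h4, fun z hz h0 hs => ?_⟩
    rcases h5 z ⟨hz, h0, hs⟩ with (h | h) | h
    · exact Or.inl (mult_lp h)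
    · exact Or.inr (Or.inl h)
    · exact Or.inr (Or.inr h)
  · refine Or.inr ⟨N, P, k, h1, h2, h3, fun z hz h0 hs => ?_⟩
    rcases h4 z ⟨hz, h0, hs⟩ with (h | h) | h
    · exact Or.inl (mult_lp h)
    · exact Or.inr (Or.inl h)
    · exact Or.inr (Or.inr h)

theorem sub_lp {f H : MvPolynomial (Fin 3) ℂ} (h : TameSub f H) : LP.TameSub f H := by
  obtain ⟨r, k, e, n, g, h1, h2, h3, h4, h5, h6, h7⟩ := h
  refine ⟨r, k, e, n, g, h1, h2, h3, h4, h5, start_lp h6, fun j => ?_⟩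
  rcases h7 j with h | ⟨m, hm, h⟩
  · exact Or.inl h
  · exact Or.inr ⟨m, hm, fun z hz h0 h1 => (h z hz h0 h1).imp_left mult_lp⟩

theorem div_lp {f H : MvPolynomial (Fin 3) ℂ} (h : DivSub f H) : LP.DivSub f H := by
  obtain ⟨e, h1, h2, h3, h4, h5 | ⟨m, hm, h5⟩⟩ := h
  · exact ⟨e, h1, h2, h3, start_lp h4, Or.inl h5⟩
  · exact ⟨e, h1, h2, h3, start_lp h4, Or.inr ⟨m, hm, fun z hz h0 =>
      (h5 z hz h0).imp_left mult_lp⟩⟩

theorem nf_lp {f H : MvPolynomial (Fin 3) ℂ} (h : NoField f H) : LP.NoField f H := by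
  rcases h with h | ⟨e', M, H', h1, h2, h3, h4⟩ | h
  · exact Or.inl h
  · exact Or.inr (Or.inl ⟨e', M, H', h1, h2, h3, fun z hz h0 => mult_lp (h4 z hz h0)⟩)
  · exact Or.inr (Or.inr h)

section
variable {f : MvPolynomial (Fin 3) ℂ} {d : ℕ} (hf0 : f ≠ 0) (hf : f.IsHomogeneous d)
include hf0 hf

theorem Tame.lp (h : Tame f) : ∃ H, LP.TameSub f H := by
  obtain ⟨H, h | h⟩ := h
  · exact ⟨H, (div_lp h).sub hf hf0⟩
  · exact ⟨H, sub_lp h⟩

theorem TameNF.lp (h : TameNF f) : ∃ H, LP.TameSub f H ∧ LP.NoField f H := by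
  obtain ⟨H, h | h, hn⟩ := h
  · exact ⟨H, (div_lp h).sub hf hf0, nf_lp hn⟩
  · exact ⟨H, sub_lp h, nf_lp hn⟩

theorem Tame.nf (h : Tame f) (ht : TrZero f) : TameNF f := by
  obtain ⟨H, h⟩ := h
  exact ⟨H, h, Or.inr (Or.inr ht)⟩

/-- **The root `-3/d`.** -/
theorem TameNF.root (h : TameNF f) {b : Polynomial ℂ} (hb : IsBFunction f b) :
    b.eval (-3 / d : ℂ) = 0 := by
  obtain ⟨H, h, hn⟩ := h.lp hf0 hf
  exact h.root hf hn hb

theorem TameNF.sf (h : TameNF f) : SF (fun _ : Fin 1 => f) 0 (-((2 + 1 : ℕ) : ℂ) / d) := by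
  obtain ⟨H, h, hn⟩ := h.lp hf0 hf
  exact h.sf hf hn

theorem TameNF.deg (h : TameNF f) : 1 ≤ d := by
  obtain ⟨H, h, hn⟩ := h.lp hf0 hf
  exact h.deg hf

/-- the germ at the origin: finitely many pairs -/
theorem TameNF.pm (h : TameNF f) {M : Meas ℂ (MK ℂ)} (hL : M.L = ((Lu ℂ : (MK ℂ)ˣ) : MK ℂ)) :
    PM M true (fun _ : Fin 1 => f) := LP.pm3 (h.deg hf0 hf) hf0 hf (h.sf hf0 hf) hL

/-- the global form: finitely many pairs -/
theorem TameNF.gm (h : TameNF f) {M : Meas ℂ (MK ℂ)} (hL : M.L = ((Lu ℂ : (MK ℂ)ˣ) : MK ℂ)) :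
    GM M true (fun _ : Fin 1 => f) := LP.gm3 (h.deg hf0 hf) hf0 hf (h.sf hf0 hf) hL

theorem Tame.ma (h : Tame f) : MA f := by
  obtain ⟨H, h⟩ := h.lp hf0 hf
  exact h.ma hf

theorem Tame.mal (h : Tame f) : MAL f := by
  obtain ⟨H, h⟩ := h.lp hf0 hf
  exact h.mal hf

end

/-- the `p`-adic zeta functions -/
theorem Tame.zr {d : ℕ} {f : MvPolynomial (Fin 3) ℚ} (hf0 : f ≠ 0) (hf : f.IsHomogeneous d)
    (h : Tame (map (algebraMap ℚ ℂ) f)) (p : ℕ)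
    [Fact p.Prime] : Pool.Agent.T6.H26.ZR p false (Pool.Agent.Y230.PS.hyp f) := by
  obtain ⟨H, h⟩ := h.lp (d := d) (fun h0 => hf0 (map_injective (algebraMap ℚ ℂ)
    (algebraMap ℚ ℂ).injective (by rw [h0, map_zero]))) (hf.map _)
  exact h.zr f (hf.map _) p

end Pool.Agent.H942.T3
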