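import Mathlib

set_option autoImplicit false

/-! # Plane curves with tame subcurves: the definitions

All polynomials are forms in three variables over `ℂ`; points `z ≠ 0` of `ℂ³` stand for the points of the
projective plane. -/

namespace Pool.Agent.H942.T3

open MvPolynomial Filter Topology

/-- `g` vanishes of order `≥ k` at `z`: the Taylor expansion `g(z + y)` has no homogeneous part of a degree
`< k` in `y`. -/
def VanGE (k : ℕ) (g : MvPolynomial (Fin 3) ℂ) (z : Fin 3 → ℂ) : Prop :=
  ∀ i < k, homogeneousComponent i (aeval (fun i => C (z i) + X i) g : MvPolynomial (Fin 3) ℂ) = 0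

/-- The multiplicity of `H` at `z` is at most `m`: the Taylor expansion `H(z + y)` has a nonzero homogeneous
part of a degree `≤ m` in `y`. -/
def MultLE (m : ℕ) (H : MvPolynomial (Fin 3) ℂ) (z : Fin 3 → ℂ) : Prop := ¬ VanGE (m + 1) H z

/-- **Non-resonant quasi-homogeneous points.** There is a homogeneous vector field `∑ θ i ∂ i`
with `∑ θ i ∂ i f = 0`, which fixes the point `z` of the projective plane, `θ (z) = c z`, and whose
action on the tangent space of the plane at `z` has integer eigenvalues `w1`, `w2`: the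
characteristic polynomial of its Jacobian matrix at `z` is `(s - k c) (s - c - w1) (s - c - w2)`;
the number `3 c` is not an integer. (If `f` has weight `N` at `z` for positive weights `w1`, `w2`
of local coordinates, then `c = -N / d`.) -/
def QHAt (f : MvPolynomial (Fin 3) ℂ) (z : Fin 3 → ℂ) : Prop :=
  ∃ (k : ℕ) (θ : Fin 3 → MvPolynomial (Fin 3) ℂ) (c : ℂ) (w1 w2 : ℤ),
    (∀ i, (θ i).IsHomogeneous k) ∧ ∑ i, θ i * pderiv i f = 0 ∧ (∀ i, eval z (θ i) = c * z i) ∧
    (∀ s : ℂ, (s • (1 : Matrix (Fin 3) (Fin 3) ℂ) -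
      Matrix.of fun i j => eval z (pderiv j (θ i))).det = (s - k * c) * (s - c - w1) *
        (s - c - w2)) ∧
    ∀ m : ℤ, 3 * c ≠ m

/-- The curves `p = 0` and `q = 0` have at least `N` different common points. -/
def ManyPts (N : ℕ) (p q : MvPolynomial (Fin 3) ℂ) : Prop :=
  ∃ P : Fin N → Fin 3 → ℂ, (∀ b, P b ≠ 0 ∧ eval (P b) p = 0 ∧ eval (P b) q = 0) ∧
    ∀ b b', b ≠ b' → ∀ c : ℂ, P b ≠ c • P b'

/-- A linear vector field `∑ (B z) i ∂ i` which annihilates the form has trace `0`. -/
def TrZero (f : MvPolynomial (Fin 3) ℂ) : Prop :=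
  ∀ B : Matrix (Fin 3) (Fin 3) ℂ, ∑ i, (∑ j, C (B i j) * X j) * pderiv i f = 0 → B.trace = 0

/-- the distance of `y` to the line of `z` (up to a constant): the sum of the absolute values of the
`2 × 2` minors of `(y, z)` -/
noncomputable def crs (y z : Fin 3 → ℂ) : ℝ := ∑ i, ∑ j, ‖y i * z j - y j * z i‖

/-- `φ y = o (|∇ H y|)` for `y → z` on the curve `H = 0` -/
def Small (H : MvPolynomial (Fin 3) ℂ) (z : Fin 3 → ℂ) (φ : (Fin 3 → ℂ) → ℝ) : Prop :=
  ∀ ε : ℝ, 0 < ε → ∀ᶠ y in 𝓝 z, eval y H = 0 → φ y ≤ ε * ∑ i, ‖eval y (pderiv i H)‖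

/-- `z` is a singular point of the curve `H = 0`. -/
def Sing (H : MvPolynomial (Fin 3) ℂ) (z : Fin 3 → ℂ) : Prop :=
  z ≠ 0 ∧ eval z H = 0 ∧ ∀ i, eval z (pderiv i H) = 0

/-- **Free points**: at most double points of the curve `H = 0` (with no other condition), and non-resonant
quasi-homogeneous points of `f`. -/
def Free (f H : MvPolynomial (Fin 3) ℂ) (z : Fin 3 → ℂ) : Prop := MultLE 2 H z ∨ QHAt f z

/-- The forms of degree `D` separate the jets of order `< k b` at the points `P b`: for every `b` and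
every form `v` of degree `D` there is a form `g` of degree `D` with `g - v` vanishing of order `≥ k b` at
`P b` and `g` vanishing of order `≥ k b'` at the other points `P b'`; and `k b ≤ D + 1`. -/
def SepJets (D : ℕ) {N : ℕ} (P : Fin N → Fin 3 → ℂ) (k : Fin N → ℕ) : Prop :=
  (∀ b, k b ≤ D + 1) ∧ ∀ (b : Fin N) (v : MvPolynomial (Fin 3) ℂ), v.IsHomogeneous D →
    ∃ g : MvPolynomial (Fin 3) ℂ, g.IsHomogeneous D ∧ VanGE (k b) (g - v) (P b) ∧
      ∀ b', b' ≠ b → VanGE (k b') g (P b')

/-- **The conditions at the singular points of the curve `H = 0` of degree `e`.** One of the following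
two conditions holds.
* There are relatively prime forms `g₁`, `g₂` of degree `κ`, `2 κ + 3 < e`, such that each singular point
  `z` of `H = 0` is free or `dist (y, ℂ z) ^ 2 (|g₁ y| + |g₂ y|) = o (|∇ H y|)` for `y → z` on `H = 0`. (This
  is a condition on the orders of `g₁`, `g₂` along the branches of the curve at `z`.)
* There are different points `P_b` of the curve `H = 0` and numbers `k_b` such that each singular point `z` of
  `H = 0` is free or a point `P_b` with `dist (y, ℂ z) ^ (k_b + 2) = o (|∇ H y|)` for `y → z` on `H = 0`, and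
  `∑ k_b + 5 ≤ e`, or (`e ≥ 6` and) the forms of degree `e - 6` separate the jets of order `< k_b` at the
  points `P_b` (`SepJets`). (We say that `P_b` has the depth `k_b`. For an ordinary `m`-fold point this is
  true for `k_b = m - 2`. In general it is the condition that the power `k_b + 1` of the maximal ideal of the
  point is contained in the conductor of the curve.) -/
def Start (f H : MvPolynomial (Fin 3) ℂ) (e : ℕ) : Prop :=
  (∃ (κ : ℕ) (g₁ g₂ : MvPolynomial (Fin 3) ℂ), g₁.IsHomogeneous κ ∧ g₂.IsHomogeneous κ ∧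
    IsRelPrime g₁ g₂ ∧ 2 * κ + 3 < e ∧ ∀ z, Sing H z → Free f H z ∨
      Small H z fun y => crs y z ^ 2 * (‖eval y g₁‖ + ‖eval y g₂‖)) ∨
  ∃ (N : ℕ) (P : Fin N → Fin 3 → ℂ) (k : Fin N → ℕ),
    (∀ b, P b ≠ 0 ∧ eval (P b) H = 0) ∧ (∀ b b', b ≠ b' → ∀ c : ℂ, P b ≠ c • P b') ∧
    (∑ b, k b + 5 ≤ e ∨ (6 ≤ e ∧ SepJets (e - 6) P k)) ∧
    ∀ z, Sing H z → Free f H z ∨ ∃ b, (∃ c : ℂ, z = c • P b) ∧
      Small H z fun y => crs y z ^ (k b + 2)

/-- **Powers and multiples of a form `H`**: `H ∣ f` is squarefree of degree `e` and satisfies the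
conditions `Start`, and `H = 0` is the reduced curve of `f = 0` (`f ∣ H ^ k`), or, for some `m < e / 3`,
the points of the curve `H = 0` have multiplicities `≤ m` (or are non-resonant quasi-homogeneous points
of `f`); then there is no condition on the form `f / H`. -/
def DivSub (f H : MvPolynomial (Fin 3) ℂ) : Prop :=
  ∃ e : ℕ, H.IsHomogeneous e ∧ Squarefree H ∧ H ∣ f ∧ Start f H e ∧
    ((∃ k : ℕ, f ∣ H ^ k) ∨ ∃ m : ℕ, 3 * m < e ∧
      ∀ z : Fin 3 → ℂ, z ≠ 0 → eval z H = 0 → MultLE m H z ∨ QHAt f z)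

/-- **`H = 0` is a tame subcurve of `f = 0`.** The reduced curve `f = 0` is the union of `H = 0` (of
degree `e`, with the conditions `Start`) and of `g_1 = 0, …, g_r = 0` (of degrees `n_j`). Let
`D_j = H ∏_{l < j} g_l`. For every `j`, `g_j` is irreducible and has more than `3 n_j` points on the curve
`D_j = 0`, or the multiplicities of `D_j = 0` at the common points (those which are not non-resonant
quasi-homogeneous points of `f`) are at most `m`, where `3 m < deg D_j`. -/
def TameSub (f H : MvPolynomial (Fin 3) ℂ) : Prop :=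
  ∃ (r k e : ℕ) (n : Fin r → ℕ) (g : Fin r → MvPolynomial (Fin 3) ℂ),
    H.IsHomogeneous e ∧ (∀ j, (g j).IsHomogeneous (n j)) ∧
    Squarefree (H * ∏ j, g j) ∧ H * ∏ j, g j ∣ f ∧ f ∣ (H * ∏ j, g j) ^ k ∧ Start f H e ∧
    ∀ j, (Irreducible (g j) ∧
        ManyPts (3 * n j + 1) (g j) (H * ∏ l ∈ Finset.univ.filter (· < j), g l)) ∨
      ∃ m, 3 * m < e + ∑ l ∈ Finset.univ.filter (· < j), n l ∧ ∀ z : Fin 3 → ℂ, z ≠ 0 →
        eval z (g j) = 0 → eval z (H * ∏ l ∈ Finset.univ.filter (· < j), g l) = 0 →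
        MultLE m (H * ∏ l ∈ Finset.univ.filter (· < j), g l) z ∨ QHAt f z

/-- Forms whose curve has a tame subcurve (some curve `H = 0` as in `DivSub` or `TameSub`). -/
def Tame (f : MvPolynomial (Fin 3) ℂ) : Prop := ∃ H, DivSub f H ∨ TameSub f H

end Pool.Agent.H942.T3
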