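import Pool.Agent.H942.T3.Cls
import Pool.Agent.H940.F.Class

set_option autoImplicit false

/-! # The classes of germs and of families generated by the forms in `Tame` -/

namespace Pool.Agent.H942.T3

open MvPolynomial
open Pool.Agent.Q57.MC (Chart mulF hypF)
open Pool.Agent.Q57.MD (sumF IsForm)
open Pool.Agent.H940.F (Germ Fam)

/-- The classes of tuples (germs at the origin) generated by helper940's class `Germ` (forms with
weighted homogeneous isolated projective singularities, the library's towers of cones, and so on) and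
by the forms in three variables of the class `Tame` which are not annihilated by a linear vector
field of trace `≠ 0` (`TrZero`). `b = true` is the smaller class, for
which sums of ideals in disjoint sets of variables are defined. -/
inductive GermT : Bool → (n r : ℕ) → (Fin r → MvPolynomial (Fin n) ℂ) → Prop
  /-- forms in three variables of the class `Tame` -/
  | tame {b : Bool} (f : MvPolynomial (Fin 3) ℂ) (d : ℕ) (hf0 : f ≠ 0) (hf : f.IsHomogeneous d)
      (hc : Tame f) (ht : TrZero f) : GermT b 3 1 fun _ => f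
  /-- the class `Germ` -/
  | germ {b : Bool} {n r : ℕ} (f : Fin r → MvPolynomial (Fin n) ℂ) (hf : Germ b n r f) :
      GermT b n r f
  /-- forms `f_j` of degree `d` in the variables `x_i`, `i ∈ T`, such that every point `p ≠ 0` with
  `f_j(p) = 0` for all `j` and `p_i = 0` for `i ∉ T` is in a chart of a finite set -/
  | cone {b : Bool} {n r : ℕ} (f : Fin r → MvPolynomial (Fin n) ℂ) (T : Finset (Fin n)) (d : ℕ)
      (hf : IsForm T d f) (S : Finset (Chart (Fin n))) (hS : ∀ A ∈ S, A.Fits f)
      (hT : ∀ A ∈ S, GermT b A.c A.r A.h)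
      (hp : ∀ p : Fin n → ℂ, p ≠ 0 → (∀ i ∉ T, p i = 0) → (∀ j, eval p (f j) = 0) →
        ∃ A ∈ S, A.Mem p) : GermT b n r f
  /-- products of ideals in disjoint sets of variables -/
  | mul {b : Bool} {n r n' r' : ℕ} (f : Fin r → MvPolynomial (Fin n) ℂ)
      (g : Fin r' → MvPolynomial (Fin n') ℂ) (hf : GermT b n r f) (hg : GermT b n' r' g) :
      GermT b (n + n') (r * r') (mulF f g)
  /-- sums of ideals in disjoint sets of variables -/
  | sum {b : Bool} {n r n' r' : ℕ} (f : Fin r → MvPolynomial (Fin n) ℂ)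
      (g : Fin r' → MvPolynomial (Fin n') ℂ) (hf : GermT true n r f) (hg : GermT true n' r' g) :
      GermT b (n + n') (r + r') (sumF f g)
  /-- the hypersurface `∑ y_j f_j = 0` -/
  | hyp {b : Bool} {n r : ℕ} (f : Fin r → MvPolynomial (Fin n) ℂ) (hf : GermT b n r f) :
      GermT b (n + r) 1 fun _ => hypF f
  /-- in `ℂ[[x]]` the `f_j` generate the same ideal as the `h_k(g_1, …, g_c)`, where `g_1, …, g_c`
  are a part of a system of formal coordinates -/
  | formal {b : Bool} {n r c l : ℕ} (f : Fin r → MvPolynomial (Fin n) ℂ)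
      (h : Fin l → MvPolynomial (Fin c) ℂ) (g : Fin c → MvPowerSeries (Fin n) ℂ)
      (s : Fin c → Fin n) (hg : ∀ t, MvPowerSeries.constantCoeff (g t) = 0)
      (hd : (Matrix.of fun u t => MvPowerSeries.coeff (Finsupp.single (s u) 1) (g t)).det ≠ 0)
      (hs : Ideal.span (Set.range fun j =>
          ((f j : MvPolynomial (Fin n) ℂ) : MvPowerSeries (Fin n) ℂ)) =
        Ideal.span (Set.range fun k => aeval g (h k))) (hh : GermT b c l h) : GermT b n r f

/-- The classes of families of polynomials on `ℂ ^ n` generated by helper940's class `Fam` and by the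
forms in three variables of the class `Tame` which are not annihilated by a linear vector field of
trace `≠ 0` (`TrZero`). -/
inductive FamT : Bool → (n r : ℕ) → (Fin r → MvPolynomial (Fin n) ℂ) → Prop
  /-- forms in three variables of the class `Tame` -/
  | tame {b : Bool} (f : MvPolynomial (Fin 3) ℂ) (d : ℕ) (hf0 : f ≠ 0) (hf : f.IsHomogeneous d)
      (hc : Tame f) (ht : TrZero f) : FamT b 3 1 fun _ => f
  /-- the class `Fam` -/
  | fam {b : Bool} {n r : ℕ} (f : Fin r → MvPolynomial (Fin n) ℂ)
      (hf : Fam b n r f) : FamT b n r f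
  /-- every common zero of the `f_j` is in a chart of a finite set -/
  | charts {b : Bool} {n r : ℕ} (f : Fin r → MvPolynomial (Fin n) ℂ) (S : Finset (Chart (Fin n)))
      (hS : ∀ A ∈ S, A.Fits f) (hT : ∀ A ∈ S, GermT b A.c A.r A.h)
      (hp : ∀ p : Fin n → ℂ, (∀ j, eval p (f j) = 0) → ∃ A ∈ S, A.Mem p) : FamT b n r f
  /-- forms `f_j` of degree `d` in the variables `x_i`, `i ∈ T`, such that every common zero `p` with
  `p_i ≠ 0` for some `i ∈ T` is in a chart of a finite set -/
  | cone {b : Bool} {n r : ℕ} (f : Fin r → MvPolynomial (Fin n) ℂ) (T : Finset (Fin n)) (d : ℕ)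
      (hf : IsForm T d f) (S : Finset (Chart (Fin n))) (hS : ∀ A ∈ S, A.Fits f)
      (hT : ∀ A ∈ S, GermT b A.c A.r A.h)
      (hp : ∀ p : Fin n → ℂ, (∃ i ∈ T, p i ≠ 0) → (∀ j, eval p (f j) = 0) →
        ∃ A ∈ S, A.Mem p) : FamT b n r f
  /-- products of ideals in disjoint sets of variables -/
  | mul {b : Bool} {n r n' r' : ℕ} (f : Fin r → MvPolynomial (Fin n) ℂ)
      (g : Fin r' → MvPolynomial (Fin n') ℂ) (hf : FamT b n r f) (hg : FamT b n' r' g) :
      FamT b (n + n') (r * r') (mulF f g)
  /-- sums of ideals in disjoint sets of variables -/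
  | sum {b : Bool} {n r n' r' : ℕ} (f : Fin r → MvPolynomial (Fin n) ℂ)
      (g : Fin r' → MvPolynomial (Fin n') ℂ) (hf : FamT true n r f) (hg : FamT true n' r' g) :
      FamT b (n + n') (r + r') (sumF f g)
  /-- the hypersurface `∑ y_j f_j = 0` -/
  | hyp {b : Bool} {n r : ℕ} (f : Fin r → MvPolynomial (Fin n) ℂ) (hf : FamT b n r f) :
      FamT b (n + r) 1 fun _ => hypF f

end Pool.Agent.H942.T3
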