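import Pool.Agent.H942.T3.Fam
import Pool.Agent.H942.T3.Main

set_option autoImplicit false
set_option linter.unusedSectionVars false
set_option linter.unusedVariables false

/-! # The theorem for the classes -/

namespace Pool.Agent.H942.T3

open MvPolynomial Pool.Agent.W428.MOT Pool.Agent.TH192.MT Pool.Agent.TH192.DT Pool.Agent.Q49.CO
open Pool.Agent.Q57.QM Pool.Agent.Y229 Pool.Agent.Q57.MC Pool.Agent.Q57.MD
open Pool.Agent.H940.Z Pool.Agent.H940.G Pool.Agent.H940.F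
open Pool.Agent.TH192.MU (zetaId IsTopZeta)
open Pool.Agent.W574.SM (IsFunctionalEq)

section

variable {M : Meas ℂ (MK ℂ)} (hL : M.L = ((Lu ℂ : (MK ℂ)ˣ) : MK ℂ))
include hL

/-- the induction -/
theorem pm_germT (hχ : ∀ (ι : Type) [Fintype ι] (S : Set (Pt ℂ ι)),
      M.χ ι S = algebraMap (K0 ℂ) (MK ℂ) (cls ι S)) {b : Bool} {n r : ℕ}
    {f : Fin r → MvPolynomial (Fin n) ℂ} (h : GermT b n r f) : PM M b f := by
  classical
  induction h with
  | @tame b f d hf0 hf hc ht =>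
    cases b
    · exact pm_weak hL _ ((hc.nf hf0 hf ht).pm hf0 hf hL)
    · exact (hc.nf hf0 hf ht).pm hf0 hf hL
  | germ f hf => exact pm_germ hL hχ hf
  | cone f T d hf S hS hT hp ih => exact pm_cone hL f T d hf S hS hp ih
  | mul f g hf hg ihf ihg => exact pm_mul hL f g ihf ihg
  | @sum b n r n' r' f g hf hg ihf ihg =>
    cases b
    · exact pm_weak hL _ (pm_sum hL f g ihf ihg)
    · exact pm_sum hL f g ihf ihg
  | hyp f hf ih => exact pm_hyp hL f ih
  | formal f h g s hg hd hs hh ih => exact pm_formal hL f h g s hg hd hs ih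

/-- the induction -/
theorem gm_famT (hχ : ∀ (ι : Type) [Fintype ι] (S : Set (Pt ℂ ι)),
      M.χ ι S = algebraMap (K0 ℂ) (MK ℂ) (cls ι S)) {b : Bool} {n r : ℕ}
    {f : Fin r → MvPolynomial (Fin n) ℂ} (h : FamT b n r f) : GM M b f := by
  classical
  induction h with
  | @tame b f d hf0 hf hc ht =>
    cases b
    · exact gm_weak hL _ ((hc.nf hf0 hf ht).gm hf0 hf hL)
    · exact (hc.nf hf0 hf ht).gm hf0 hf hL
  | fam f hf => exact gm_fam hL hχ hf
  | charts f S hS hT hp => exact gm_charts hL f S hS hp fun A hA => pm_germT hL hχ (hT A hA)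
  | cone f T d hf S hS hT hp =>
    exact gm_cone hL f T d hf S hS hp fun A hA => pm_germT hL hχ (hT A hA)
  | mul f g hf hg ihf ihg => exact gm_mul hL f g ihf ihg
  | @sum b n r n' r' f g hf hg ihf ihg =>
    cases b
    · exact gm_weak hL _ (gm_sum hL f g ihf ihg)
    · exact gm_sum hL f g ihf ihg
  | hyp f hf ih => exact gm_hyp hL f ih

end

/-- **The theorem for the germs of the class.** -/
theorem germT_main {b : Bool} {n r : ℕ} {f : Fin r → MvPolynomial (Fin n) ℂ}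
    (h : GermT b n r f) : (∃ j, f j ≠ 0) ∧ ∃ S : Finset (ℤ × ℤ), StrongMC f S := by
  obtain ⟨M, hL, hχ⟩ := exists_meas ℂ
  have h1 : PM M false f := by
    cases b
    · exact pm_germT hL hχ h
    · exact pm_weak hL f (pm_germT hL hχ h)
  obtain ⟨hne, S, hS, hz⟩ := h1
  refine ⟨hne, S, fun q hq => ⟨(hS q hq).1, (hS q hq).2.1, (sf_iff f hne _).1 (hS q hq).2.2⟩, ?_⟩
  rw [SW_false] at hz
  exact (zeta_iff hL hχ f _).2 hz

/-- **The theorem for the families of the class.** -/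
theorem famT_main {b : Bool} {n r : ℕ} {f : Fin r → MvPolynomial (Fin n) ℂ}
    (h : FamT b n r f) : (∃ j, f j ≠ 0) ∧ ∃ S : Finset (ℤ × ℤ), GlobMC f S := by
  obtain ⟨M, hL, hχ⟩ := exists_meas ℂ
  have h1 : GM M false f := by
    cases b
    · exact gm_famT hL hχ h
    · exact gm_weak hL f (gm_famT hL hχ h)
  obtain ⟨hne, S, hS, hz⟩ := h1
  refine ⟨hne, S, hS, ?_⟩
  rw [SW_false] at hz
  exact (zetaId_iff hL hχ f _).2 hz

section top

variable {b : Bool} {n r : ℕ} {R : Type} [CommRing R] [IsDomain R] (E : MK ℂ →+* R) (ε : R →+* ℂ)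
  (hε : ε (E ((Lu ℂ : (MK ℂ)ˣ) : MK ℂ)) = 1) (hE : E ((Lu ℂ : (MK ℂ)ˣ) : MK ℂ) ≠ 1)

include hε hE

/-- the local topological zeta functions -/
theorem germT_top {f : Fin r → MvPolynomial (Fin n) ℂ} (h : GermT b n r f) (Z : RatFunc ℂ)
    (hZ : IsTopZeta E ε (zetaJ f) Z) (s₀ : ℂ) (hs : Z.denom.eval s₀ = 0) (B : Polynomial ℂ)
    (hb : IsLocalBI f B) : B.eval s₀ = 0 := by
  obtain ⟨-, S, hS, hz⟩ := germT_main h
  obtain ⟨q, hq, rfl⟩ := top_poles E ε hε hE _ (fun q hq => ⟨(hS q hq).1, (hS q hq).2.1⟩) _ hz Z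
    hZ s₀ hs
  exact (hS q hq).2.2 B hb

/-- the global topological zeta functions -/
theorem famT_top {f : Fin r → MvPolynomial (Fin n) ℂ} (h : FamT b n r f) (Z : RatFunc ℂ)
    (hZ : IsTopZeta E ε (zetaId f) Z) (s₀ : ℂ) (hs : Z.denom.eval s₀ = 0) (B : Polynomial ℂ)
    (hb : IsFunctionalEq f B) : B.eval s₀ = 0 := by
  classical
  obtain ⟨-, S, hS, hz⟩ := famT_main h
  obtain ⟨q, hq, rfl⟩ := top_poles E ε hε hE _ (fun q hq => ⟨(hS q hq).1, (hS q hq).2.1⟩) _ hz Z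
    hZ s₀ hs
  obtain ⟨p, hp⟩ := (hS q hq).2.2
  exact sf_forced hp B hb

end top

end Pool.Agent.H942.T3
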