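import Pool.Agent.H942.T3.Cls

set_option autoImplicit false

/-! # Linear vector fields: the definitions -/

namespace Pool.Agent.H942.T3

open MvPolynomial Filter Topology

/-- **Ordinary double points.** Only the multiples of `z` are in the kernel of the Hessian matrix
of `H` at `z` (it has rank `2`). -/
def NodeAt (H : MvPolynomial (Fin 3) ℂ) (z : Fin 3 → ℂ) : Prop :=
  ∀ w : Fin 3 → ℂ, (∀ i, ∑ j, eval z (pderiv i (pderiv j H)) * w j = 0) → ∃ c : ℂ, w = c • z

/-- The linear vector fields which annihilate `f` have trace `0`; or (this is sufficient) the singular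
points of `H = 0` are nodes, or a form `H'` which divides `f` has only points with multiplicities
`≤ M < deg H' / 2`. -/
def NoField (f H : MvPolynomial (Fin 3) ℂ) : Prop :=
  (∀ z : Fin 3 → ℂ, z ≠ 0 → eval z H = 0 → (∀ i, eval z (pderiv i H) = 0) → NodeAt H z) ∨
    (∃ (e' M : ℕ) (H' : MvPolynomial (Fin 3) ℂ), H'.IsHomogeneous e' ∧ H' ∣ f ∧ 2 * M < e' ∧
      ∀ z : Fin 3 → ℂ, z ≠ 0 → eval z H' = 0 → MultLE M H' z) ∨ TrZero f

/-- Forms of the class `Tame` which are not annihilated by a linear vector field of trace `≠ 0`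
(see `NoField`). -/
def TameNF (f : MvPolynomial (Fin 3) ℂ) : Prop := ∃ H, (DivSub f H ∨ TameSub f H) ∧ NoField f H

end Pool.Agent.H942.T3
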